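import Mathlib
import Pool.Agent.Helper54.HR2.Gram6

/-!
MP_16b0ee, project HR2: a faster form of the checks `chR` and `chI` of the kernel computation of a
certificate. The offsets are collected in constants of the table, big numbers are natural numbers,
arguments are evaluated before they are used, the Gram matrix is computed row by row.
-/

set_option autoImplicit false

namespace Pool.Agent.Helper12.HR2F

open Pool.Agent.Helper54.HR2
open Pool.Agent.Helper12.HR2 (Par)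

/-! ## Definitions -/

/-- evaluate the argument first -/
noncomputable def frc {α : Type} (f : ℕ → α) (x : ℕ) : α :=
  Nat.rec (motive := fun _ => α) (f 0) (fun n _ => f (Nat.succ n)) x

/-- blocks: the digits -/
noncomputable def brN (w : ℕ) (bs : List Blk) (x : ℕ) : ℕ :=
  List.rec (motive := fun _ => ℕ) 0
    (fun b _ ih => Nat.add (Nat.shiftLeft (gr1 w b.2.2 (Nat.div x (Nat.pow w b.2.1))) b.1) ih) bs

/-- blocks: ones -/
noncomputable def brO (bs : List Blk) : ℕ :=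
  List.rec (motive := fun _ => ℕ) 0
    (fun b _ ih => Nat.add (Nat.shiftLeft (go1 b.2.2) b.1) ih) bs

/-- blocks: the digits, imaginary form -/
noncomputable def biN (w g : ℕ) (bs : List Blk) (x : ℕ) : ℕ :=
  List.rec (motive := fun _ => ℕ) 0
    (fun b _ ih => Nat.add (Nat.shiftLeft (gi1 w g b.2.2 (Nat.div x (Nat.pow w b.2.1))) b.1) ih) bs

/-- blocks: ones, imaginary form -/
noncomputable def biO (bs : List Blk) : ℕ :=
  List.rec (motive := fun _ => ℕ) 0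
    (fun b _ ih => Nat.add (Nat.shiftLeft (gp1 b.2.2) b.1) ih) bs

/-- sum over columns: ones -/
noncomputable def tO (f : List Blk → ℕ) (T : List (ℕ × List Blk)) : ℕ :=
  List.rec (motive := fun _ => ℕ) 0 (fun b _ ih => Nat.add (f b.2) ih) T

/-- sum over the groups: ones -/
noncomputable def gO (f : Grp → ℕ) (gs : List Grp) : ℕ :=
  List.rec (motive := fun _ => ℕ) 0 (fun g _ ih => Nat.add (f g) ih) gs

/-- sum over the groups -/
noncomputable def gN (f : Grp → ℕ × ℕ → ℕ) (gs : List Grp) : List (ℕ × ℕ) → ℕ :=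
  List.rec (motive := fun _ => List (ℕ × ℕ) → ℕ) (fun _ => 0)
    (fun g _ ih l => List.rec (motive := fun _ => ℕ) 0
      (fun xy l' _ => Nat.add (f g xy) (ih l')) l) gs

/-- the second list is not shorter -/
noncomputable def glen (gs : List Grp) : List (ℕ × ℕ) → Bool :=
  List.rec (motive := fun _ => List (ℕ × ℕ) → Bool) (fun _ => true)
    (fun _ _ ih l => List.rec (motive := fun _ => Bool) false (fun _ l' _ => ih l') l) gs

/-- the columns of the Gram matrix with one more row -/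
noncomputable def rsp (w S T : ℕ) (X : List ℕ) : ℕ → ℕ → List ℕ :=
  List.rec (motive := fun _ => ℕ → ℕ → List ℕ) (fun _ _ => [])
    (fun x _ ih a b => List.cons
      (Nat.add (Nat.add (Nat.mul (Nat.mod a w) S) (Nat.mul (Nat.mod b w) T)) x)
      (ih (Nat.div a w) (Nat.div b w))) X

/-- the columns of the Gram matrix: the real part and `be` times the imaginary part, modulo `Z`;
`Z1` is `Z - 1` -/
noncomputable def clp (B w h be Z Z1 : ℕ) (U : List (ℕ × ℕ × ℕ)) : ℕ → ℕ → List ℕ :=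
  List.rec (motive := fun _ => ℕ → ℕ → List ℕ) (fun _ _ => [])
    (fun r _ ih P q => frc (fun SR => frc (fun SI => frc (fun O =>
      frc (fun S => frc (fun T => frc (fun P' => frc (fun q' =>
        rsp w S T (List.cons q' (ih P' q')) r.2.1 r.2.2)
        (Nat.mod (Nat.add q (Nat.mul h (Nat.mul Z1 (Nat.add S T)))) Z))
        (Nat.mul P B))
        (Nat.mod (Nat.add (Nat.mul P (Nat.add SI (Nat.mul be O)))
          (Nat.mul Z1 (Nat.mul P (Nat.add O (Nat.mul be SR))))) Z))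
        (Nat.mod (Nat.add (Nat.mul P (Nat.add SR (Nat.mul be SI)))
          (Nat.mul Z1 (Nat.mul P (Nat.mul O (Nat.add 1 be))))) Z))
        (Nat.mul h (ons B r.1))) (spr B w r.1 r.2.2)) (spr B w r.1 r.2.1)) U

/-- sum over the columns -/
noncomputable def mM (f : List Blk → ℕ → ℕ) (T : List (ℕ × List Blk)) : List ℕ → ℕ :=
  List.rec (motive := fun _ => List ℕ → ℕ) (fun _ => 0)
    (fun b _ ih X => List.rec (motive := fun _ => ℕ) 0
      (fun x X' _ => Nat.add (f b.2 x) (ih X')) X) T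

/-! ## Basic equalities -/

theorem frc_eq {α : Type} (f : ℕ → α) (x : ℕ) : frc f x = f x := by cases x <;> rfl

theorem shl_eq (a o : ℕ) : Nat.shiftLeft a o = a * 2 ^ o := Nat.shiftLeft_eq a o

theorem sh_eq (o : ℕ) (z : ℤ) : sh o z = 2 ^ o * z := by
  have h : (Int.ofNat (Nat.shiftLeft 1 o)) = (2 : ℤ) ^ o := by
    rw [shl_eq, one_mul]
    exact Nat.cast_pow 2 o
  show (Int.ofNat (Nat.shiftLeft 1 o)) * z = _
  rw [h]

theorem yr_eq (w h : ℕ) (rs : List Sng) (x : ℕ) :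
    yr w h rs x = (gr1 w rs x : ℤ) - h * (go1 rs : ℤ) := by
  have h1 : yr w h rs x = Int.subNatNat (gr1 w rs x) (h * go1 rs) := rfl
  rw [h1, Int.subNatNat_eq_coe]
  push_cast
  ring

theorem yi_eq (w h : ℕ) (rs : List Sng) (x : ℕ) :
    yi w h rs x = (gi1 w (2 * h) rs x : ℤ) - h * (gp1 rs : ℤ) := by
  have h1 : yi w h rs x = Int.subNatNat (gi1 w (2 * h) rs x) (h * gp1 rs) := rfl
  rw [h1, Int.subNatNat_eq_coe]
  push_cast
  ring

theorem zr_eq (w h : ℕ) (rs : List Row) (x : ℕ) :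
    zr w h rs x = (fr w rs x : ℤ) - h * (fr1 rs : ℤ) := by
  have h1 : zr w h rs x = Int.subNatNat (fr w rs x) (h * fr1 rs) := rfl
  rw [h1, Int.subNatNat_eq_coe]
  push_cast
  ring

theorem zi_eq (w h : ℕ) (rs : List Row) (x : ℕ) :
    zi w h rs x = (fi w (2 * h) rs x : ℤ) - h * (fi1 rs : ℤ) := by
  have h1 : zi w h rs x = Int.subNatNat (fi w (2 * h) rs x) (h * fi1 rs) := rfl
  rw [h1, Int.subNatNat_eq_coe]
  push_cast
  ring

theorem brN_cons (w : ℕ) (b : Blk) (bs : List Blk) (x : ℕ) :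
    brN w (b :: bs) x = gr1 w b.2.2 (x / w ^ b.2.1) * 2 ^ b.1 + brN w bs x := by
  rw [← shl_eq]; rfl

theorem brO_cons (b : Blk) (bs : List Blk) :
    brO (b :: bs) = go1 b.2.2 * 2 ^ b.1 + brO bs := by
  rw [← shl_eq]; rfl

theorem biN_cons (w g : ℕ) (b : Blk) (bs : List Blk) (x : ℕ) :
    biN w g (b :: bs) x = gi1 w g b.2.2 (x / w ^ b.2.1) * 2 ^ b.1 + biN w g bs x := by
  rw [← shl_eq]; rfl

theorem biO_cons (b : Blk) (bs : List Blk) :
    biO (b :: bs) = gp1 b.2.2 * 2 ^ b.1 + biO bs := by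
  rw [← shl_eq]; rfl

theorem br_eq (w h : ℕ) (bs : List Blk) (x : ℕ) :
    br w h bs x = (brN w bs x : ℤ) - h * (brO bs : ℤ) := by
  induction bs with
  | nil =>
    show (0 : ℤ) = ((0 : ℕ) : ℤ) - h * ((0 : ℕ) : ℤ)
    simp
  | cons b bs ih =>
    have h1 : br w h (b :: bs) x = sh b.1 (yr w h b.2.2 (x / w ^ b.2.1)) + br w h bs x := rfl
    rw [h1, ih, sh_eq, yr_eq, brN_cons, brO_cons]
    push_cast
    ring

theorem bi_eq (w h : ℕ) (bs : List Blk) (x : ℕ) :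
    bi w h bs x = (biN w (2 * h) bs x : ℤ) - h * (biO bs : ℤ) := by
  induction bs with
  | nil =>
    show (0 : ℤ) = ((0 : ℕ) : ℤ) - h * ((0 : ℕ) : ℤ)
    simp
  | cons b bs ih =>
    have h1 : bi w h (b :: bs) x = sh b.1 (yi w h b.2.2 (x / w ^ b.2.1)) + bi w h bs x := rfl
    rw [h1, ih, sh_eq, yi_eq, biN_cons, biO_cons]
    push_cast
    ring

/-! ## The groups -/

theorem gN_cons (f : Grp → ℕ × ℕ → ℕ) (g : Grp) (gs : List Grp) (xy : ℕ × ℕ)
    (l : List (ℕ × ℕ)) : gN f (g :: gs) (xy :: l) = f g xy + gN f gs l := rfl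

theorem gO_cons (f : Grp → ℕ) (g : Grp) (gs : List Grp) : gO f (g :: gs) = f g + gO f gs := rfl

/-- the weighted derivative, digits, real form -/
noncomputable def f1 (w : ℕ) (g : Grp) (xy : ℕ × ℕ) : ℕ := Nat.shiftLeft (fr w g.D xy.1) g.oE

/-- the products, digits, real form, first component -/
noncomputable def f2 (w : ℕ) (g : Grp) (xy : ℕ × ℕ) : ℕ := Nat.shiftLeft (gr1 w g.E xy.1) g.oE

/-- the products, digits, real form, second component -/
noncomputable def f3 (w : ℕ) (g : Grp) (xy : ℕ × ℕ) : ℕ := Nat.shiftLeft (gr1 w g.E xy.2) g.oE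

/-- the monomials, digits, real form -/
noncomputable def f4 (w : ℕ) (g : Grp) (xy : ℕ × ℕ) : ℕ := Nat.shiftLeft (gr1 w g.M xy.1) g.oM

/-- ones -/
noncomputable def o1 (g : Grp) : ℕ := Nat.shiftLeft (fr1 g.D) g.oE

/-- ones -/
noncomputable def o2 (g : Grp) : ℕ := Nat.shiftLeft (go1 g.E) g.oE

/-- ones -/
noncomputable def o4 (g : Grp) : ℕ := Nat.shiftLeft (go1 g.M) g.oM

/-- the derivative, digits, imaginary form -/
noncomputable def i1 (w h2 : ℕ) (g : Grp) (xy : ℕ × ℕ) : ℕ :=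
  Nat.shiftLeft (fi w h2 g.D xy.2) g.oE

/-- the products, digits, imaginary form, first component -/
noncomputable def i2 (w h2 : ℕ) (g : Grp) (xy : ℕ × ℕ) : ℕ :=
  Nat.shiftLeft (gi1 w h2 g.E xy.1) g.oE

/-- the products, digits, imaginary form, second component -/
noncomputable def i3 (w h2 : ℕ) (g : Grp) (xy : ℕ × ℕ) : ℕ :=
  Nat.shiftLeft (gi1 w h2 g.E xy.2) g.oE

/-- the monomials, digits, imaginary form -/
noncomputable def i4 (w h2 : ℕ) (g : Grp) (xy : ℕ × ℕ) : ℕ :=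
  Nat.shiftLeft (gi1 w h2 g.M xy.2) g.oM

/-- ones -/
noncomputable def p1 (g : Grp) : ℕ := Nat.shiftLeft (fi1 g.D) g.oE

/-- ones -/
noncomputable def p2 (g : Grp) : ℕ := Nat.shiftLeft (gp1 g.E) g.oE

/-- ones -/
noncomputable def p4 (g : Grp) : ℕ := Nat.shiftLeft (gp1 g.M) g.oM

theorem gsr_eq (P : Par) (w h : ℕ) (gs : List Grp) : ∀ l : List (ℕ × ℕ), glen gs l = true →
    gsr P w h gs l = (P.bd : ℤ) * P.sr * ((gN (f1 w) gs l : ℤ) - h * (gO o1 gs : ℤ))
      - ((P.bd : ℤ) * P.sr * ((gN (fun g xy => Nat.mul g.a (f2 w g xy)) gs l : ℤ)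
          - h * (gO (fun g => Nat.mul g.a (o2 g)) gs : ℤ))
        + 2 * (P.bd : ℤ) * P.p * ((gN (f2 w) gs l : ℤ) - h * (gO o2 gs : ℤ)))
      + 2 * (P.bd : ℤ) * P.q * ((gN (f3 w) gs l : ℤ) - h * (gO o2 gs : ℤ))
      - ((P.sr : ℤ) * P.bn * ((gN (f4 w) gs l : ℤ) - h * (gO o4 gs : ℤ))
        + (P.sr : ℤ) * P.bd * ((gN (fun g xy => Nat.mul g.w (f4 w g xy)) gs l : ℤ)
          - h * (gO (fun g => Nat.mul g.w (o4 g)) gs : ℤ))) := by
  induction gs with
  | nil =>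
    intro l _
    show (0 : ℤ) = _
    have h0 : ∀ f : Grp → ℕ × ℕ → ℕ, gN f [] l = 0 := fun f => rfl
    have h1 : ∀ f : Grp → ℕ, gO f [] = 0 := fun f => rfl
    rw [h0, h0, h0, h0, h0, h0, h1, h1, h1, h1, h1]
    simp
  | cons g gs ih =>
    intro l hl
    rcases l with _ | ⟨xy, l⟩
    · exact absurd hl (by simp [glen])
    · have hl' : glen gs l = true := hl
      have h1 : gsr P w h (g :: gs) (xy :: l) = gr P w h g xy + gsr P w h gs l := rfl
      rw [h1, ih l hl']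
      have h2 : gr P w h g xy = sh g.oE
          ((((P.bd : ℤ) * P.sr) * zr w h g.D xy.1
            - ((P.bd : ℤ) * P.sr * g.a + 2 * (P.bd : ℤ) * P.p) * yr w h g.E xy.1)
            + (2 * (P.bd : ℤ) * P.q) * yr w h g.E xy.2)
          - sh g.oM (((P.sr : ℤ) * (P.bn + P.bd * g.w)) * yr w h g.M xy.1) := by
        have e1 : cD P = (P.bd : ℤ) * P.sr := Nat.cast_mul _ _
        have e2 : cE P g.a = (P.bd : ℤ) * P.sr * g.a + 2 * (P.bd : ℤ) * P.p := by
          show (((P.bd * P.sr * g.a : ℕ) : ℤ) + ((2 * P.bd : ℕ) : ℤ) * P.p) = _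
          push_cast
          ring
        have e3 : cF P = 2 * (P.bd : ℤ) * P.q := by
          show (((2 * P.bd : ℕ) : ℤ) * P.q) = _
          push_cast
          ring
        have e4 : cM P g.w = (P.sr : ℤ) * (P.bn + P.bd * g.w) := by
          show (((P.sr * (P.bn + P.bd * g.w) : ℕ)) : ℤ) = _
          push_cast
          ring
        rw [← e2, ← e1, ← e3, ← e4]
        rfl
      rw [h2, sh_eq, sh_eq, zr_eq, yr_eq, yr_eq, yr_eq]
      simp only [gN_cons, gO_cons, f1, f2, f3, f4, o1, o2, o4, shl_eq, Nat.mul_eq]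
      push_cast
      ring

theorem gsi_eq (P : Par) (w h : ℕ) (gs : List Grp) : ∀ l : List (ℕ × ℕ), glen gs l = true →
    gsi P w h gs l = 2 * (P.bd : ℤ) * P.q * ((gN (i2 w (2 * h)) gs l : ℤ) - h * (gO p2 gs : ℤ))
      - (P.bd : ℤ) * P.sr * ((gN (i1 w (2 * h)) gs l : ℤ) - h * (gO p1 gs : ℤ))
      + ((P.bd : ℤ) * P.sr * ((gN (fun g xy => Nat.mul g.a (i3 w (2 * h) g xy)) gs l : ℤ)
          - h * (gO (fun g => Nat.mul g.a (p2 g)) gs : ℤ))
        + 2 * (P.bd : ℤ) * P.p * ((gN (i3 w (2 * h)) gs l : ℤ) - h * (gO p2 gs : ℤ)))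
      + ((P.sr : ℤ) * P.bn * ((gN (i4 w (2 * h)) gs l : ℤ) - h * (gO p4 gs : ℤ))
        + (P.sr : ℤ) * P.bd * ((gN (fun g xy => Nat.mul g.w (i4 w (2 * h) g xy)) gs l : ℤ)
          - h * (gO (fun g => Nat.mul g.w (p4 g)) gs : ℤ))) := by
  induction gs with
  | nil =>
    intro l _
    show (0 : ℤ) = _
    have h0 : ∀ f : Grp → ℕ × ℕ → ℕ, gN f [] l = 0 := fun f => rfl
    have h1 : ∀ f : Grp → ℕ, gO f [] = 0 := fun f => rfl
    rw [h0, h0, h0, h0, h0, h0, h1, h1, h1, h1, h1]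
    simp
  | cons g gs ih =>
    intro l hl
    rcases l with _ | ⟨xy, l⟩
    · exact absurd hl (by simp [glen])
    · have hl' : glen gs l = true := hl
      have h1 : gsi P w h (g :: gs) (xy :: l) = gi P w h g xy + gsi P w h gs l := rfl
      rw [h1, ih l hl']
      have h2 : gi P w h g xy = sh g.oE
          (((2 * (P.bd : ℤ) * P.q) * yi w h g.E xy.1
            - ((P.bd : ℤ) * P.sr) * zi w h g.D xy.2)
            + ((P.bd : ℤ) * P.sr * g.a + 2 * (P.bd : ℤ) * P.p) * yi w h g.E xy.2)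
          + sh g.oM (((P.sr : ℤ) * (P.bn + P.bd * g.w)) * yi w h g.M xy.2) := by
        have e1 : cD P = (P.bd : ℤ) * P.sr := Nat.cast_mul _ _
        have e2 : cE P g.a = (P.bd : ℤ) * P.sr * g.a + 2 * (P.bd : ℤ) * P.p := by
          show (((P.bd * P.sr * g.a : ℕ) : ℤ) + ((2 * P.bd : ℕ) : ℤ) * P.p) = _
          push_cast
          ring
        have e3 : cF P = 2 * (P.bd : ℤ) * P.q := by
          show (((2 * P.bd : ℕ) : ℤ) * P.q) = _
          push_cast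
          ring
        have e4 : cM P g.w = (P.sr : ℤ) * (P.bn + P.bd * g.w) := by
          show (((P.sr * (P.bn + P.bd * g.w) : ℕ)) : ℤ) = _
          push_cast
          ring
        rw [← e2, ← e1, ← e3, ← e4]
        rfl
      rw [h2, sh_eq, sh_eq, zi_eq, yi_eq, yi_eq, yi_eq]
      simp only [gN_cons, gO_cons, i1, i2, i3, i4, p1, p2, p4, shl_eq, Nat.mul_eq]
      push_cast
      ring

/-! ## The Gram matrix -/

/-- one term of a column, real part -/
def cfR (h SR SI O u v : ℕ) : ℕ := u * SR + v * SI + (4 * h - (u + v)) * O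

/-- one term of a column, imaginary part -/
def cfI (h SR SI O u v : ℕ) : ℕ := u * SI + (2 * h - v) * SR + (2 * h + v - u) * O

theorem rsp_cons (w S T : ℕ) (x : ℕ) (X : List ℕ) (a b : ℕ) :
    rsp w S T (x :: X) a b = (a % w * S + b % w * T + x) :: rsp w S T X (a / w) (b / w) := rfl

theorem rsp_get (w S T : ℕ) : ∀ (X : List ℕ) (a b k : ℕ),
    (rsp w S T X a b)[k]? = (X[k]?).map (fun x =>
      a / w ^ k % w * S + b / w ^ k % w * T + x) := by
  intro X
  induction X with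
  | nil => intro a b k; rfl
  | cons x X ih =>
    intro a b k
    rw [rsp_cons]
    rcases k with _ | k
    · simp
    · rw [List.getElem?_cons_succ, List.getElem?_cons_succ, ih]
      simp only [Nat.div_div_eq_div_mul, pow_succ']

/-- the first multiplier of a row -/
def mS (P be Z Z1 SR SI O : ℕ) : ℕ := (P * (SR + be * SI) + Z1 * (P * (O * (1 + be)))) % Z

/-- the second multiplier of a row -/
def mT (P be Z Z1 SR SI O : ℕ) : ℕ := (P * (SI + be * O) + Z1 * (P * (O + be * SR))) % Z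

/-- the correction -/
def mQ (q h Z Z1 S T : ℕ) : ℕ := (q + h * (Z1 * (S + T))) % Z

theorem clp_cons (B w h be Z Z1 : ℕ) (r : ℕ × ℕ × ℕ) (U : List (ℕ × ℕ × ℕ)) (P q : ℕ) :
    clp B w h be Z Z1 (r :: U) P q = rsp w
      (mS P be Z Z1 (spr B w r.1 r.2.1) (spr B w r.1 r.2.2) (h * ons B r.1))
      (mT P be Z Z1 (spr B w r.1 r.2.1) (spr B w r.1 r.2.2) (h * ons B r.1))
      (mQ q h Z Z1 (mS P be Z Z1 (spr B w r.1 r.2.1) (spr B w r.1 r.2.2) (h * ons B r.1))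
        (mT P be Z Z1 (spr B w r.1 r.2.1) (spr B w r.1 r.2.2) (h * ons B r.1))
        :: clp B w h be Z Z1 U (P * B)
          (mQ q h Z Z1 (mS P be Z Z1 (spr B w r.1 r.2.1) (spr B w r.1 r.2.2) (h * ons B r.1))
          (mT P be Z Z1 (spr B w r.1 r.2.1) (spr B w r.1 r.2.2) (h * ons B r.1))))
      r.2.1 r.2.2 := by
  have h1 : clp B w h be Z Z1 (r :: U) P q = frc (fun SR => frc (fun SI => frc (fun O =>
      frc (fun S => frc (fun T => frc (fun P' => frc (fun q' =>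
        rsp w S T (q' :: clp B w h be Z Z1 U P' q') r.2.1 r.2.2)
        (mQ q h Z Z1 S T)) (P * B)) (mT P be Z Z1 SR SI O)) (mS P be Z Z1 SR SI O))
        (h * ons B r.1)) (spr B w r.1 r.2.2)) (spr B w r.1 r.2.1) := rfl
  rw [h1]
  simp only [frc_eq]

theorem cr_zero (B w h : ℕ) (r : ℕ × ℕ × ℕ) (U : List (ℕ × ℕ × ℕ)) :
    cr B w h (r :: U) 0 = cfR h (spr B w r.1 r.2.1) (spr B w r.1 r.2.2) (h * ons B r.1)
      (r.2.1 / w ^ 0 % w) (r.2.2 / w ^ 0 % w) := rfl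

theorem cr_succ (B w h : ℕ) (r : ℕ × ℕ × ℕ) (U : List (ℕ × ℕ × ℕ)) (k : ℕ) :
    cr B w h (r :: U) (k + 1) = cfR h (spr B w r.1 r.2.1) (spr B w r.1 r.2.2) (h * ons B r.1)
      (r.2.1 / w ^ (k + 1) % w) (r.2.2 / w ^ (k + 1) % w) + B * cr B w h U k := rfl

theorem ci_zero (B w h : ℕ) (r : ℕ × ℕ × ℕ) (U : List (ℕ × ℕ × ℕ)) :
    ci B w h (r :: U) 0 = cfI h (spr B w r.1 r.2.1) (spr B w r.1 r.2.2) (h * ons B r.1)
      (r.2.1 / w ^ 0 % w) (r.2.2 / w ^ 0 % w) := rfl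

theorem ci_succ (B w h : ℕ) (r : ℕ × ℕ × ℕ) (U : List (ℕ × ℕ × ℕ)) (k : ℕ) :
    ci B w h (r :: U) (k + 1) = cfI h (spr B w r.1 r.2.1) (spr B w r.1 r.2.2) (h * ons B r.1)
      (r.2.1 / w ^ (k + 1) % w) (r.2.2 / w ^ (k + 1) % w) + B * ci B w h U k := rfl

theorem cq_zero (B w h : ℕ) (r : ℕ × ℕ × ℕ) (U : List (ℕ × ℕ × ℕ)) :
    cq B w h (r :: U) 0 = h * (spr B w r.1 r.2.1 + spr B w r.1 r.2.2)
      + 2 * h * (h * ons B r.1) := rfl

theorem cq_succ (B w h : ℕ) (r : ℕ × ℕ × ℕ) (U : List (ℕ × ℕ × ℕ)) (k : ℕ) :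
    cq B w h (r :: U) (k + 1) = h * (spr B w r.1 r.2.1 + spr B w r.1 r.2.2)
      + 2 * h * (h * ons B r.1) + B * cq B w h U k := rfl

theorem cast_mS {Z Z1 : ℕ} (hZ : Z = Z1 + 1) (P be SR SI O : ℕ) :
    ((mS P be Z Z1 SR SI O : ℕ) : ZMod Z)
      = (P : ZMod Z) * (((SR : ZMod Z) - O) + be * ((SI : ZMod Z) - O)) := by
  have h1 : ((Z1 : ℕ) : ZMod Z) = -1 := by
    have : ((Z : ℕ) : ZMod Z) = 0 := ZMod.natCast_self Z
    rw [hZ] at this ⊢
    push_cast at this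
    exact eq_neg_of_add_eq_zero_left this
  unfold mS
  rw [ZMod.natCast_mod]
  push_cast
  rw [h1]
  ring

theorem cast_mT {Z Z1 : ℕ} (hZ : Z = Z1 + 1) (P be SR SI O : ℕ) :
    ((mT P be Z Z1 SR SI O : ℕ) : ZMod Z)
      = (P : ZMod Z) * (((SI : ZMod Z) - O) + be * ((O : ZMod Z) - SR)) := by
  have h1 : ((Z1 : ℕ) : ZMod Z) = -1 := by
    have : ((Z : ℕ) : ZMod Z) = 0 := ZMod.natCast_self Z
    rw [hZ] at this ⊢
    push_cast at this
    exact eq_neg_of_add_eq_zero_left this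
  unfold mT
  rw [ZMod.natCast_mod]
  push_cast
  rw [h1]
  ring

theorem cast_mQ {Z Z1 : ℕ} (hZ : Z = Z1 + 1) (q h S T : ℕ) :
    ((mQ q h Z Z1 S T : ℕ) : ZMod Z) = (q : ZMod Z) - h * ((S : ZMod Z) + T) := by
  have h1 : ((Z1 : ℕ) : ZMod Z) = -1 := by
    have : ((Z : ℕ) : ZMod Z) = 0 := ZMod.natCast_self Z
    rw [hZ] at this ⊢
    push_cast at this
    exact eq_neg_of_add_eq_zero_left this
  unfold mQ
  rw [ZMod.natCast_mod]
  push_cast
  rw [h1]
  ring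

theorem cast_cf {R : Type} [CommRing R] {h u v : ℕ} (hu : u ≤ 2 * h) (hv : v ≤ 2 * h)
    (P be SR SI O S T : R) (hS : S = P * ((SR - O) + be * (SI - O)))
    (hT : T = P * ((SI - O) + be * (O - SR))) (a b c : ℕ) (ha : (a : R) = SR) (hb : (b : R) = SI)
    (hc : (c : R) = O) :
    ((u : R) - h) * S + ((v : R) - h) * T
      = P * ((((cfR h a b c u v : ℕ) : R) - ((h * (a + b) + 2 * h * c : ℕ) : R))
        + be * (((cfI h a b c u v : ℕ) : R) - ((h * (a + b) + 2 * h * c : ℕ) : R))) := by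
  have h1 : u + v ≤ 4 * h := by omega
  have h2 : u ≤ 2 * h + v := by omega
  unfold cfR cfI
  push_cast [Nat.cast_sub h1, Nat.cast_sub hv, Nat.cast_sub h2]
  rw [hS, hT, ha, hb, hc]
  ring

theorem clp_get {B w h be Z Z1 : ℕ} (hZ : Z = Z1 + 1) (hw0 : 0 < w) (hw : w ≤ 2 * h + 1) :
    ∀ (U : List (ℕ × ℕ × ℕ)) (P q k : ℕ), k < U.length →
    ∃ y : ℕ, (clp B w h be Z Z1 U P q)[k]? = some y ∧ (y : ZMod Z) = (q : ZMod Z)
      + P * ((((cr B w h U k : ℕ) : ZMod Z) - ((cq B w h U k : ℕ) : ZMod Z))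
        + be * (((ci B w h U k : ℕ) : ZMod Z) - ((cq B w h U k : ℕ) : ZMod Z))) := by
  intro U
  induction U with
  | nil => intro P q k hk; simp at hk
  | cons r U ih =>
    intro P q k hk
    have hu : ∀ j, r.2.1 / w ^ j % w ≤ 2 * h := fun j => by
      have := Nat.mod_lt (r.2.1 / w ^ j) hw0
      omega
    have hv : ∀ j, r.2.2 / w ^ j % w ≤ 2 * h := fun j => by
      have := Nat.mod_lt (r.2.2 / w ^ j) hw0
      omega
    rw [clp_cons, rsp_get]
    set a := spr B w r.1 r.2.1 with ha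
    set b := spr B w r.1 r.2.2 with hb
    set c := h * ons B r.1 with hc
    have hS := cast_mS hZ P be a b c
    have hT := cast_mT hZ P be a b c
    have hQ := cast_mQ hZ q h (mS P be Z Z1 a b c) (mT P be Z Z1 a b c)
    rcases k with _ | k
    · refine ⟨_, by rw [List.getElem?_cons_zero, Option.map_some], ?_⟩
      have h1 := cast_cf (R := ZMod Z) (hu 0) (hv 0) (P : ZMod Z) (be : ZMod Z) (a : ZMod Z)
        (b : ZMod Z) (c : ZMod Z) _ _ hS hT a b c rfl rfl rfl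
      rw [cr_zero, ci_zero, cq_zero, ← ha, ← hb, ← hc, ← h1]
      push_cast
      rw [hQ]
      ring
    · obtain ⟨y, hy, hy'⟩ := ih (P * B) (mQ q h Z Z1 (mS P be Z Z1 a b c) (mT P be Z Z1 a b c)) k
        (by simpa using hk)
      refine ⟨_, by rw [List.getElem?_cons_succ, hy, Option.map_some], ?_⟩
      have h1 := cast_cf (R := ZMod Z) (hu (k + 1)) (hv (k + 1)) (P : ZMod Z) (be : ZMod Z)
        (a : ZMod Z) (b : ZMod Z) (c : ZMod Z) _ _ hS hT a b c rfl rfl rfl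
      rw [cr_succ, ci_succ, cq_succ, ← ha, ← hb, ← hc]
      push_cast
      rw [hy', hQ]
      push_cast at h1 ⊢
      linear_combination h1

theorem mM_cons (f : List Blk → ℕ → ℕ) (b : ℕ × List Blk) (T : List (ℕ × List Blk)) (x : ℕ)
    (X : List ℕ) : mM f (b :: T) (x :: X) = f b.2 x + mM f T X := rfl

/-- the sum over the columns from functions -/
theorem mM_eq (f g : List Blk → ℕ → ℕ) (G : ℕ → ℕ) :
    ∀ (T : List (ℕ × List Blk)) (i : ℕ) (X : List ℕ),
      T.map Prod.fst = List.range' i T.length →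
      (∀ k < T.length, ∃ y, X[k]? = some y ∧ ∀ bs, f bs y = g bs (G (i + k))) →
      mM f T X = (T.map (fun b => g b.2 (G b.1))).sum := by
  intro T
  induction T with
  | nil => intro i X _ _; rfl
  | cons b T ih =>
    intro i X hT hX
    rcases X with _ | ⟨x, X⟩
    · obtain ⟨y, hy, -⟩ := hX 0 (by simp)
      simp at hy
    rw [List.map_cons, List.length_cons, List.range'_succ, List.cons.injEq] at hT
    obtain ⟨y, hy, hg⟩ := hX 0 (by simp)
    have hx : x = y := by simpa using hy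
    rw [mM_cons, List.map_cons, List.sum_cons, ih (i + 1) X hT.2, hT.1, hx, hg b.2, Nat.add_zero]
    intro k hk
    obtain ⟨y', hy', hg'⟩ := hX (k + 1) (by simpa using hk)
    rw [List.getElem?_cons_succ] at hy'
    refine ⟨y', hy', fun bs => ?_⟩
    rw [hg' bs]
    congr 2
    omega

theorem mr_sum (B H w h n : ℕ) (U : List (ℕ × ℕ × ℕ)) (T : List (ℕ × List Blk)) :
    mr B H w h n U T = ((T.map (fun b => brN B b.2 (cr B w h U b.1 + H * ons B n
      - cq B w h U b.1))).sum : ℤ) - H * (tO brO T : ℤ) := by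
  induction T with
  | nil =>
    show (0 : ℤ) = ((0 : ℕ) : ℤ) - H * ((0 : ℕ) : ℤ)
    simp
  | cons b T ih =>
    have h1 : mr B H w h n U (b :: T) = br B H b.2 (cr B w h U b.1 + H * ons B n
      - cq B w h U b.1) + mr B H w h n U T := rfl
    have h2 : tO brO (b :: T) = brO b.2 + tO brO T := rfl
    rw [h1, ih, br_eq, h2, List.map_cons, List.sum_cons]
    push_cast
    ring

theorem mi_sum (B H w h n : ℕ) (U : List (ℕ × ℕ × ℕ)) (T : List (ℕ × List Blk)) :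
    mi B H w h n U T = ((T.map (fun b => biN B (2 * H) b.2 (ci B w h U b.1 + H * ons B n
      - cq B w h U b.1))).sum : ℤ) - H * (tO biO T : ℤ) := by
  induction T with
  | nil =>
    show (0 : ℤ) = ((0 : ℕ) : ℤ) - H * ((0 : ℕ) : ℤ)
    simp
  | cons b T ih =>
    have h1 : mi B H w h n U (b :: T) = bi B H b.2 (ci B w h U b.1 + H * ons B n
      - cq B w h U b.1) + mi B H w h n U T := rfl
    have h2 : tO biO (b :: T) = biO b.2 + tO biO T := rfl
    rw [h1, ih, bi_eq, h2, List.map_cons, List.sum_cons]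
    push_cast
    ring

/-- a packed sum with offset is small and has a simple value -/
theorem packed_lt (B H n c q : ℕ) (G : ℕ → ℤ) (hB : B = 2 * H)
    (hc : (c : ℤ) - q = ∑ i ∈ Finset.range n, G i * (B : ℤ) ^ i) (hG : ∀ i < n, |G i| < H) :
    c + H * ons B n - q < B ^ n ∧ ((c + H * ons B n - q : ℕ) : ℤ) = c + H * ons B n - q := by
  have h1 : ∀ j < n, (0 : ℤ) ≤ G j + H ∧ G j + H < B := by
    intro j hj
    have := abs_lt.1 (hG j hj)
    rw [hB]
    push_cast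
    constructor <;> linarith [this.1, this.2]
  have h2 : ((c + H * ons B n : ℕ) : ℤ)
      = ((q + ∑ j ∈ Finset.range n, (G j + H).toNat * B ^ j : ℕ) : ℤ) := by
    rw [ons_eq]
    push_cast
    have h3 : ∑ j ∈ Finset.range n, (((G j + (H : ℤ)).toNat : ℕ) : ℤ) * (B : ℤ) ^ j
        = ∑ j ∈ Finset.range n, (G j * (B : ℤ) ^ j + (H : ℤ) * (B : ℤ) ^ j) := by
      apply Finset.sum_congr rfl
      intro j hj
      rw [Int.toNat_of_nonneg (h1 j (Finset.mem_range.1 hj)).1]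
      ring
    rw [h3, Finset.sum_add_distrib, ← hc, ← Finset.mul_sum]
    ring
  have h4 : c + H * ons B n = q + ∑ j ∈ Finset.range n, (G j + H).toNat * B ^ j := by
    exact_mod_cast h2
  have h5 : ∀ m, (∀ j < m, (G j + H).toNat < B) →
      ∑ j ∈ Finset.range m, (G j + H).toNat * B ^ j < B ^ m := by
    intro m
    induction m with
    | zero => intro _; simp
    | succ m ih =>
      intro hm
      rw [Finset.sum_range_succ, pow_succ]
      have e1 := ih (fun j hj => hm j (by omega))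
      have e2 := hm m (by omega)
      have e3 : ((G m + H).toNat + 1) * B ^ m ≤ B * B ^ m := Nat.mul_le_mul_right _ e2
      nlinarith
  constructor
  · rw [h4, Nat.add_sub_cancel_left]
    exact h5 n (fun j hj => by have := h1 j hj; omega)
  · rw [h4, Nat.add_sub_cancel_left]
    have h6 : ((c + H * ons B n : ℕ) : ℤ)
        = ((q + ∑ j ∈ Finset.range n, (G j + H).toNat * B ^ j : ℕ) : ℤ) := by rw [h4]
    push_cast at h6 ⊢
    linarith

/-- the real and the imaginary part of a packed column -/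
theorem split_of_zmod {be y x x' : ℕ} (hx : x < be) (hx' : x' < be)
    (h : (y : ZMod (be * be)) = ((x + be * x' : ℕ) : ZMod (be * be))) :
    y % be = x ∧ y / be % be = x' := by
  have h1 : y % (be * be) = (x + be * x') % (be * be) := (ZMod.natCast_eq_natCast_iff' _ _ _).1 h
  have h2 : x + be * x' < be * be := by nlinarith
  rw [Nat.mod_eq_of_lt h2, Nat.mod_mul] at h1
  have h3 : y % be < be := Nat.mod_lt _ (by omega)
  have h4 : (y % be + be * (y / be % be)) % be = (x + be * x') % be := by rw [h1]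
  rw [Nat.add_mul_mod_self_left, Nat.add_mul_mod_self_left, Nat.mod_mod, Nat.mod_eq_of_lt hx]
    at h4
  refine ⟨h4, ?_⟩
  rw [h4] at h1
  have h5 : be * (y / be % be) = be * x' := by omega
  exact Nat.eq_of_mul_eq_mul_left (by omega) h5

/-- the columns are right -/
theorem clp_split {B H w h n : ℕ} (hB : B = 2 * H) (hH : 2 * n * (w * w) ≤ H) (hw0 : 0 < w)
    (hw : w ≤ 2 * h + 1) (hw' : h < w) {U : List (ℕ × ℕ × ℕ)} (hU : uok U n = true) {Z1 : ℕ}
    (hZ : B ^ n * B ^ n = Z1 + 1) (k : ℕ) (hk : k < n) :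
    ∃ y, (clp B w h (B ^ n) (B ^ n * B ^ n) Z1 U 1 (H * (ons B n * (1 + B ^ n))))[k]? = some y ∧
      y % B ^ n = cr B w h U k + H * ons B n - cq B w h U k ∧
      y / B ^ n % B ^ n = ci B w h U k + H * ons B n - cq B w h U k := by
  have hlen : U.length = n := uok_len hU
  have hww : 0 < w * w := Nat.mul_pos hw0 hw0
  have hH0 : 0 < H := by
    have : 0 < 2 * n * (w * w) := Nat.mul_pos (by omega) hww
    omega
  have hb : 2 * (n : ℤ) * (((w : ℤ) - 1) * ((w : ℤ) - 1)) < H := by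
    have h1 : 2 * (n : ℤ) * ((w : ℤ) * w) ≤ H := by exact_mod_cast hH
    have h2 : (1 : ℤ) ≤ w := by exact_mod_cast hw0
    have h3 : (1 : ℤ) ≤ n := by exact_mod_cast (by omega : 1 ≤ n)
    nlinarith
  have hG1 : ∀ i < n, |Gre w h U i k| < (H : ℤ) := fun i _ => by
    have := Gre_abs w h hw' U i k
    rw [hlen] at this
    linarith
  have hG2 : ∀ i < n, |Gim w h U i k| < (H : ℤ) := fun i _ => by
    have := Gim_abs w h hw' U i k
    rw [hlen] at this
    linarith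
  obtain ⟨r1, r2⟩ := packed_lt B H n _ _ _ hB (cr_cq B w h hw0 hw U n k hU hk) hG1
  obtain ⟨i1, i2⟩ := packed_lt B H n _ _ _ hB (ci_cq B w h hw0 hw U n k hU hk) hG2
  obtain ⟨y, hy, hy'⟩ := clp_get (be := B ^ n) hZ hw0 hw U 1 (H * (ons B n * (1 + B ^ n))) k
    (by omega)
  refine ⟨y, hy, split_of_zmod r1 i1 ?_⟩
  have r3 := congrArg (Int.cast : ℤ → ZMod (B ^ n * B ^ n)) r2
  have i3 := congrArg (Int.cast : ℤ → ZMod (B ^ n * B ^ n)) i2
  simp only [Int.cast_natCast, Int.cast_sub, Int.cast_add, Int.cast_mul] at r3 i3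
  rw [hy', Nat.cast_add, Nat.cast_mul (B ^ n) (ci B w h U k + H * ons B n - cq B w h U k), r3, i3]
  push_cast
  ring

/-- the reading of the real part of a column -/
noncomputable def rdR (B be : ℕ) (bs : List Blk) (x : ℕ) : ℕ :=
  frc (fun y => brN B bs y) (Nat.mod x be)

/-- the reading of the imaginary part of a column -/
noncomputable def rdI (B be g : ℕ) (bs : List Blk) (x : ℕ) : ℕ :=
  frc (fun y => biN B g bs y) (Nat.mod (Nat.div x be) be)

theorem rdR_eq (B be : ℕ) (bs : List Blk) (x : ℕ) : rdR B be bs x = brN B bs (x % be) :=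
  frc_eq _ _

theorem rdI_eq (B be g : ℕ) (bs : List Blk) (x : ℕ) :
    rdI B be g bs x = biN B g bs (x / be % be) := frc_eq _ _

theorem mr_eq {B H w h n : ℕ} (hB : B = 2 * H) (hH : 2 * n * (w * w) ≤ H) (hw0 : 0 < w)
    (hw : w ≤ 2 * h + 1) (hw' : h < w) {U : List (ℕ × ℕ × ℕ)} (hU : uok U n = true) {Z1 : ℕ}
    (hZ : B ^ n * B ^ n = Z1 + 1) {T : List (ℕ × List Blk)}
    (hT : T.map Prod.fst = List.range' 0 T.length) (hn : T.length = n) :
    mr B H w h n U T = (mM (rdR B (B ^ n)) T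
      (clp B w h (B ^ n) (B ^ n * B ^ n) Z1 U 1 (H * (ons B n * (1 + B ^ n)))) : ℤ)
        - H * (tO brO T : ℤ) := by
  rw [mr_sum, mM_eq (rdR B (B ^ n)) (brN B)
    (fun k => cr B w h U k + H * ons B n - cq B w h U k) T 0 _ hT]
  intro k hk
  obtain ⟨y, hy, h1, -⟩ := clp_split hB hH hw0 hw hw' hU hZ k (by omega)
  refine ⟨y, hy, fun bs => ?_⟩
  rw [rdR_eq, h1, Nat.zero_add]

theorem mi_eq {B H w h n : ℕ} (hB : B = 2 * H) (hH : 2 * n * (w * w) ≤ H) (hw0 : 0 < w)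
    (hw : w ≤ 2 * h + 1) (hw' : h < w) {U : List (ℕ × ℕ × ℕ)} (hU : uok U n = true) {Z1 : ℕ}
    (hZ : B ^ n * B ^ n = Z1 + 1) {T : List (ℕ × List Blk)}
    (hT : T.map Prod.fst = List.range' 0 T.length) (hn : T.length = n) :
    mi B H w h n U T = (mM (rdI B (B ^ n) (2 * H)) T
      (clp B w h (B ^ n) (B ^ n * B ^ n) Z1 U 1 (H * (ons B n * (1 + B ^ n)))) : ℤ)
        - H * (tO biO T : ℤ) := by
  rw [mi_sum, mM_eq (rdI B (B ^ n) (2 * H)) (biN B (2 * H))
    (fun k => ci B w h U k + H * ons B n - cq B w h U k) T 0 _ hT]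
  intro k hk
  obtain ⟨y, hy, -, h1⟩ := clp_split hB hH hw0 hw hw' hU hZ k (by omega)
  refine ⟨y, hy, fun bs => ?_⟩
  rw [rdI_eq, h1, Nat.zero_add]

/-! ## The fast checks -/

/-- constants of a table -/
structure TabC where
  /-- the form, real -/
  zq : ℕ
  /-- the derivatives, real -/
  zD : ℕ
  /-- the products with multiplicities, real -/
  zaE : ℕ
  /-- the products, real -/
  zE : ℕ
  /-- the monomials, real -/
  zM : ℕ
  /-- the monomials with weights, real -/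
  zwM : ℕ
  /-- the Gram matrix, real -/
  zC : ℕ
  /-- the residual, real -/
  zr : ℕ
  /-- the sum of all squares -/
  d1 : ℕ
  /-- the form, imaginary -/
  yq : ℕ
  /-- the derivatives, imaginary -/
  yD : ℕ
  /-- the products with multiplicities, imaginary -/
  yaE : ℕ
  /-- the products, imaginary -/
  yE : ℕ
  /-- the monomials, imaginary -/
  yM : ℕ
  /-- the monomials with weights, imaginary -/
  ywM : ℕ
  /-- the Gram matrix, imaginary -/
  yC : ℕ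
  /-- the residual, imaginary -/
  yr : ℕ

/-- the constants belong to the table -/
noncomputable def TabC.ok (c : TabC) (t : Tab6) : Bool :=
  and (and (and (and (Nat.beq c.zq (brO t.q)) (Nat.beq c.zD (gO o1 t.g)))
    (and (Nat.beq c.zaE (gO (fun g => Nat.mul g.a (o2 g)) t.g)) (Nat.beq c.zE (gO o2 t.g))))
    (and (and (Nat.beq c.zM (gO o4 t.g)) (Nat.beq c.zwM (gO (fun g => Nat.mul g.w (o4 g)) t.g)))
      (and (Nat.beq c.zC (tO brO t.c)) (Nat.beq c.zr (brO t.r)))))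
    (and (and (and (and (Nat.beq c.yq (biO t.q)) (Nat.beq c.yD (gO p1 t.g)))
    (and (Nat.beq c.yaE (gO (fun g => Nat.mul g.a (p2 g)) t.g)) (Nat.beq c.yE (gO p2 t.g))))
    (and (and (Nat.beq c.yM (gO p4 t.g)) (Nat.beq c.ywM (gO (fun g => Nat.mul g.w (p4 g)) t.g)))
      (and (Nat.beq c.yC (tO biO t.c)) (Nat.beq c.yr (biO t.r)))))
      (Nat.beq c.d1 (brN 2 t.d (Nat.sub (Nat.pow 2 t.nB) 1))))

/-- the groups, real part -/
noncomputable def gsF (P : Par) (w h : ℕ) (c : TabC) (gs : List Grp) (l : List (ℕ × ℕ)) : ℤ :=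
  Int.sub (Int.add (Int.sub
    (Int.mul (Int.ofNat (Nat.mul P.bd P.sr))
      (Int.subNatNat (Nat.add (gN (f1 w) gs l) (Nat.mul h c.zaE))
        (Nat.add (gN (fun g xy => Nat.mul g.a (f2 w g xy)) gs l) (Nat.mul h c.zD))))
    (Int.mul (Int.mul (Int.ofNat (Nat.mul 2 P.bd)) P.p)
      (Int.subNatNat (gN (f2 w) gs l) (Nat.mul h c.zE))))
    (Int.mul (Int.mul (Int.ofNat (Nat.mul 2 P.bd)) P.q)
      (Int.subNatNat (gN (f3 w) gs l) (Nat.mul h c.zE))))
    (Int.mul (Int.ofNat P.sr) (Int.subNatNat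
      (Nat.add (Nat.mul P.bn (gN (f4 w) gs l))
        (Nat.mul P.bd (gN (fun g xy => Nat.mul g.w (f4 w g xy)) gs l)))
      (Nat.mul h (Nat.add (Nat.mul P.bn c.zM) (Nat.mul P.bd c.zwM)))))

/-- the groups, imaginary part -/
noncomputable def gsG (P : Par) (w h h2 : ℕ) (c : TabC) (gs : List Grp) (l : List (ℕ × ℕ)) : ℤ :=
  Int.add (Int.add (Int.add
    (Int.mul (Int.ofNat (Nat.mul P.bd P.sr))
      (Int.subNatNat (Nat.add (gN (fun g xy => Nat.mul g.a (i3 w h2 g xy)) gs l) (Nat.mul h c.yD))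
        (Nat.add (gN (i1 w h2) gs l) (Nat.mul h c.yaE))))
    (Int.mul (Int.mul (Int.ofNat (Nat.mul 2 P.bd)) P.p)
      (Int.subNatNat (gN (i3 w h2) gs l) (Nat.mul h c.yE))))
    (Int.mul (Int.mul (Int.ofNat (Nat.mul 2 P.bd)) P.q)
      (Int.subNatNat (gN (i2 w h2) gs l) (Nat.mul h c.yE))))
    (Int.mul (Int.ofNat P.sr) (Int.subNatNat
      (Nat.add (Nat.mul P.bn (gN (i4 w h2) gs l))
        (Nat.mul P.bd (gN (fun g xy => Nat.mul g.w (i4 w h2 g xy)) gs l)))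
      (Nat.mul h (Nat.add (Nat.mul P.bn c.yM) (Nat.mul P.bd c.ywM)))))

/-- the real part of the identity; `X` is the list of the columns -/
noncomputable def FRf (t : Tab6) (c : TabC) (C : Cert6) (B be : ℕ) (X : List ℕ) : ℤ :=
  Int.add (Int.add
    (Int.mul (Int.ofNat (Nat.mul 2 C.m1)) (Int.add
      (Int.mul (Int.ofNat (Nat.mul C.P.sr C.P.bd))
        (Int.subNatNat (Nat.add (Nat.shiftLeft C.eta t.one) (frc (fun w => brN w t.q C.qx) C.wQ))
          (Nat.mul C.hQ c.zq)))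
      (Int.mul (Int.ofNat C.mL) (frc (fun w => gsF C.P w C.hL c t.g C.G) C.wL))))
    (Int.mul (Int.ofNat C.m2) (Int.subNatNat (mM (rdR B be) t.c X) (Nat.mul C.hG c.zC))))
    (Int.add (Int.ofNat (Nat.add (frc (fun w => brN w t.d C.dg) C.wD) (Nat.mul C.eps c.d1)))
      (Int.mul (Int.ofNat 2) (Int.subNatNat (frc (fun w => brN w t.r C.rx) C.wR)
        (Nat.mul C.hR c.zr))))

/-- minus the imaginary part of the identity -/
noncomputable def FIf (t : Tab6) (c : TabC) (C : Cert6) (B be : ℕ) (X : List ℕ) : ℤ :=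
  Int.add (Int.sub
    (Int.mul (Int.ofNat C.m2) (Int.subNatNat
      (frc (fun g => mM (rdI B be g) t.c X) (Nat.mul 2 C.hG)) (Nat.mul C.hG c.yC)))
    (Int.mul (Int.ofNat (Nat.mul 2 C.m1)) (Int.sub
      (Int.mul (Int.ofNat C.mL)
        (frc (fun h2 => frc (fun w => gsG C.P w C.hL h2 c t.g C.G) C.wL) (Nat.mul 2 C.hL)))
      (Int.mul (Int.ofNat (Nat.mul C.P.sr C.P.bd))
        (Int.subNatNat (frc (fun h2 => frc (fun w => biN w h2 t.q C.qy) C.wQ) (Nat.mul 2 C.hQ))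
          (Nat.mul C.hQ c.yq))))))
    (Int.mul (Int.ofNat 2) (Int.subNatNat
      (frc (fun h2 => frc (fun w => biN w h2 t.r C.ry) C.wR) (Nat.mul 2 C.hR))
      (Nat.mul C.hR c.yr)))

/-- the conditions on the sizes -/
noncomputable def szF (t : Tab6) (C : Cert6) : Bool :=
  and (and (Nat.ble (Nat.succ C.hU) C.wU) (Nat.ble C.wU (Nat.succ (Nat.mul 2 C.hU))))
    (and (Nat.beq C.wG (Nat.mul 2 C.hG))
      (Nat.ble (Nat.mul (Nat.mul 2 t.n) (Nat.mul C.wU C.wU)) C.hG))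

/-- **The fast form of the checks `chR` and `chI`.** -/
noncomputable def chF (t : Tab6) (c : TabC) (C : Cert6) : Bool :=
  and (and (and (glen t.g C.G) (uok C.U t.n)) (szF t C))
    (frc (fun B => frc (fun w => frc (fun h => frc (fun be => frc (fun Z1 => frc (fun Z =>
      (fun X : List ℕ => and (Nat.beq Z (Nat.succ Z1))
        (and (isz (FRf t c C B be X)) (isz (FIf t c C B be X))))
        (clp B w h be Z Z1 C.U 1 (Nat.mul C.hG (Nat.mul (ons B t.n) (Nat.add 1 be)))))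
      (Nat.mul be be)) (Nat.sub (Nat.mul be be) 1)) (Nat.pow B t.n)) C.hU) C.wU) C.wG)

theorem TabC.ok_eqs {c : TabC} {t : Tab6} (h : c.ok t = true) :
    (c.zq = brO t.q ∧ c.zD = gO o1 t.g ∧ c.zaE = gO (fun g => Nat.mul g.a (o2 g)) t.g
      ∧ c.zE = gO o2 t.g ∧ c.zM = gO o4 t.g ∧ c.zwM = gO (fun g => Nat.mul g.w (o4 g)) t.g
      ∧ c.zC = tO brO t.c ∧ c.zr = brO t.r)
    ∧ (c.yq = biO t.q ∧ c.yD = gO p1 t.g ∧ c.yaE = gO (fun g => Nat.mul g.a (p2 g)) t.g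
      ∧ c.yE = gO p2 t.g ∧ c.yM = gO p4 t.g ∧ c.ywM = gO (fun g => Nat.mul g.w (p4 g)) t.g
      ∧ c.yC = tO biO t.c ∧ c.yr = biO t.r) ∧ c.d1 = brN 2 t.d (2 ^ t.nB - 1) := by
  simp only [TabC.ok, Bool.and_eq_true] at h
  obtain ⟨⟨⟨⟨a1, a2⟩, a3, a4⟩, ⟨a5, a6⟩, a7, a8⟩, ⟨⟨⟨b1, b2⟩, b3, b4⟩, ⟨b5, b6⟩, b7, b8⟩, d⟩ := h
  exact ⟨⟨Nat.eq_of_beq_eq_true a1, Nat.eq_of_beq_eq_true a2, Nat.eq_of_beq_eq_true a3,
    Nat.eq_of_beq_eq_true a4, Nat.eq_of_beq_eq_true a5, Nat.eq_of_beq_eq_true a6,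
    Nat.eq_of_beq_eq_true a7, Nat.eq_of_beq_eq_true a8⟩,
    ⟨Nat.eq_of_beq_eq_true b1, Nat.eq_of_beq_eq_true b2, Nat.eq_of_beq_eq_true b3,
    Nat.eq_of_beq_eq_true b4, Nat.eq_of_beq_eq_true b5, Nat.eq_of_beq_eq_true b6,
    Nat.eq_of_beq_eq_true b7, Nat.eq_of_beq_eq_true b8⟩, Nat.eq_of_beq_eq_true d⟩

theorem gsF_eq {t : Tab6} {c : TabC} (hc : c.ok t = true) (P : Par) (w h : ℕ)
    (l : List (ℕ × ℕ)) (hl : glen t.g l = true) : gsF P w h c t.g l = gsr P w h t.g l := by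
  obtain ⟨⟨e1, e2, e3, e4, e5, e6, e7, e8⟩, -, -⟩ := TabC.ok_eqs hc
  rw [gsr_eq P w h t.g l hl, ← e2, ← e3, ← e4, ← e5, ← e6]
  have h1 : gsF P w h c t.g l = ((P.bd * P.sr : ℕ) : ℤ)
      * Int.subNatNat (gN (f1 w) t.g l + h * c.zaE)
        (gN (fun g xy => Nat.mul g.a (f2 w g xy)) t.g l + h * c.zD)
      - (((2 * P.bd : ℕ) : ℤ) * P.p) * Int.subNatNat (gN (f2 w) t.g l) (h * c.zE)
      + (((2 * P.bd : ℕ) : ℤ) * P.q) * Int.subNatNat (gN (f3 w) t.g l) (h * c.zE)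
      - (P.sr : ℤ) * Int.subNatNat (P.bn * gN (f4 w) t.g l
          + P.bd * gN (fun g xy => Nat.mul g.w (f4 w g xy)) t.g l)
        (h * (P.bn * c.zM + P.bd * c.zwM)) := rfl
  rw [h1]
  simp only [Int.subNatNat_eq_coe]
  push_cast
  ring

theorem gsG_eq {t : Tab6} {c : TabC} (hc : c.ok t = true) (P : Par) (w h : ℕ)
    (l : List (ℕ × ℕ)) (hl : glen t.g l = true) :
    gsG P w h (2 * h) c t.g l = gsi P w h t.g l := by
  obtain ⟨-, ⟨e1, e2, e3, e4, e5, e6, e7, e8⟩, -⟩ := TabC.ok_eqs hc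
  rw [gsi_eq P w h t.g l hl, ← e2, ← e3, ← e4, ← e5, ← e6]
  have h1 : gsG P w h (2 * h) c t.g l = ((P.bd * P.sr : ℕ) : ℤ)
      * Int.subNatNat (gN (fun g xy => Nat.mul g.a (i3 w (2 * h) g xy)) t.g l + h * c.yD)
        (gN (i1 w (2 * h)) t.g l + h * c.yaE)
      + (((2 * P.bd : ℕ) : ℤ) * P.p) * Int.subNatNat (gN (i3 w (2 * h)) t.g l) (h * c.yE)
      + (((2 * P.bd : ℕ) : ℤ) * P.q) * Int.subNatNat (gN (i2 w (2 * h)) t.g l) (h * c.yE)
      + (P.sr : ℤ) * Int.subNatNat (P.bn * gN (i4 w (2 * h)) t.g l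
          + P.bd * gN (fun g xy => Nat.mul g.w (i4 w (2 * h) g xy)) t.g l)
        (h * (P.bn * c.yM + P.bd * c.ywM)) := rfl
  rw [h1]
  simp only [Int.subNatNat_eq_coe]
  push_cast
  ring

theorem FRf_eq {t : Tab6} {c : TabC} (hc : c.ok t = true)
    (hT : t.c.map Prod.fst = List.range' 0 t.c.length) (hn : t.c.length = t.n) (C : Cert6)
    (hl : glen t.g C.G = true) (hU : uok C.U t.n = true) (h1 : C.hU < C.wU)
    (h2 : C.wU ≤ 2 * C.hU + 1) (h3 : C.wG = 2 * C.hG) (h4 : 2 * t.n * (C.wU * C.wU) ≤ C.hG)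
    {Z1 : ℕ} (hZ : C.wG ^ t.n * C.wG ^ t.n = Z1 + 1) :
    FRf t c C C.wG (C.wG ^ t.n) (clp C.wG C.wU C.hU (C.wG ^ t.n) (C.wG ^ t.n * C.wG ^ t.n) Z1 C.U 1
      (C.hG * (ons C.wG t.n * (1 + C.wG ^ t.n)))) = FR t C := by
  obtain ⟨⟨e1, e2, e3, e4, e5, e6, e7, e8⟩, -, ed⟩ := TabC.ok_eqs hc
  set X := clp C.wG C.wU C.hU (C.wG ^ t.n) (C.wG ^ t.n * C.wG ^ t.n) Z1 C.U 1
      (C.hG * (ons C.wG t.n * (1 + C.wG ^ t.n))) with hX
  have q1 : FRf t c C C.wG (C.wG ^ t.n) X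
      = ((2 * C.m1 : ℕ) : ℤ) * (((C.P.sr * C.P.bd : ℕ) : ℤ)
          * (Int.subNatNat (Nat.shiftLeft C.eta t.one + frc (fun w => brN w t.q C.qx) C.wQ)
            (C.hQ * c.zq)) + (C.mL : ℤ) * frc (fun w => gsF C.P w C.hL c t.g C.G) C.wL)
        + (C.m2 : ℤ) * Int.subNatNat (mM (rdR C.wG (C.wG ^ t.n)) t.c X) (C.hG * c.zC)
        + ((((frc (fun w => brN w t.d C.dg) C.wD + C.eps * c.d1 : ℕ)) : ℤ)
          + 2 * Int.subNatNat (frc (fun w => brN w t.r C.rx) C.wR) (C.hR * c.zr)) := rfl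
  have q2 : FR t C = ((2 * C.m1 : ℕ) : ℤ) * (((C.P.sr * C.P.bd : ℕ) : ℤ)
          * (((Nat.shiftLeft C.eta t.one : ℕ) : ℤ) + br C.wQ C.hQ t.q C.qx)
            + (C.mL : ℤ) * gsr C.P C.wL C.hL t.g C.G)
        + (C.m2 : ℤ) * mr C.wG C.hG C.wU C.hU t.n C.U t.c
        + ((br C.wD 0 t.d C.dg + (C.eps : ℤ) * br 2 0 t.d (2 ^ t.nB - 1))
          + 2 * br C.wR C.hR t.r C.rx) := rfl
  rw [q1, q2, mr_eq h3 h4 (by omega) h2 h1 hU hZ hT hn, ← hX, br_eq, br_eq, br_eq, br_eq, ← e1,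
    ← e7, ← e8, ← ed]
  simp only [frc_eq, Int.subNatNat_eq_coe]
  rw [gsF_eq hc C.P C.wL C.hL C.G hl]
  push_cast
  ring

theorem FIf_eq {t : Tab6} {c : TabC} (hc : c.ok t = true)
    (hT : t.c.map Prod.fst = List.range' 0 t.c.length) (hn : t.c.length = t.n) (C : Cert6)
    (hl : glen t.g C.G = true) (hU : uok C.U t.n = true) (h1 : C.hU < C.wU)
    (h2 : C.wU ≤ 2 * C.hU + 1) (h3 : C.wG = 2 * C.hG) (h4 : 2 * t.n * (C.wU * C.wU) ≤ C.hG)
    {Z1 : ℕ} (hZ : C.wG ^ t.n * C.wG ^ t.n = Z1 + 1) :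
    FIf t c C C.wG (C.wG ^ t.n) (clp C.wG C.wU C.hU (C.wG ^ t.n) (C.wG ^ t.n * C.wG ^ t.n) Z1 C.U 1
      (C.hG * (ons C.wG t.n * (1 + C.wG ^ t.n)))) = FI t C := by
  obtain ⟨-, ⟨e1, e2, e3, e4, e5, e6, e7, e8⟩, -⟩ := TabC.ok_eqs hc
  set X := clp C.wG C.wU C.hU (C.wG ^ t.n) (C.wG ^ t.n * C.wG ^ t.n) Z1 C.U 1
      (C.hG * (ons C.wG t.n * (1 + C.wG ^ t.n))) with hX
  have q1 : FIf t c C C.wG (C.wG ^ t.n) X
      = (C.m2 : ℤ) * Int.subNatNat (frc (fun g => mM (rdI C.wG (C.wG ^ t.n) g) t.c X) (2 * C.hG))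
          (C.hG * c.yC)
        - ((2 * C.m1 : ℕ) : ℤ) * ((C.mL : ℤ)
            * frc (fun h2 => frc (fun w => gsG C.P w C.hL h2 c t.g C.G) C.wL) (2 * C.hL)
          - ((C.P.sr * C.P.bd : ℕ) : ℤ) * Int.subNatNat
            (frc (fun h2 => frc (fun w => biN w h2 t.q C.qy) C.wQ) (2 * C.hQ)) (C.hQ * c.yq))
        + 2 * Int.subNatNat (frc (fun h2 => frc (fun w => biN w h2 t.r C.ry) C.wR) (2 * C.hR))
          (C.hR * c.yr) := rfl
  have q2 : FI t C = (C.m2 : ℤ) * mi C.wG C.hG C.wU C.hU t.n C.U t.c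
        - ((2 * C.m1 : ℕ) : ℤ) * ((C.mL : ℤ) * gsi C.P C.wL C.hL t.g C.G
          - ((C.P.sr * C.P.bd : ℕ) : ℤ) * bi C.wQ C.hQ t.q C.qy)
        + 2 * bi C.wR C.hR t.r C.ry := rfl
  rw [q1, q2, mi_eq h3 h4 (by omega) h2 h1 hU hZ hT hn, ← hX, bi_eq, bi_eq, ← e1, ← e7, ← e8]
  simp only [frc_eq, Int.subNatNat_eq_coe]
  rw [gsG_eq hc C.P C.wL C.hL C.G hl]
  push_cast
  ring

theorem chF_eqs {t : Tab6} {c : TabC} (hc : c.ok t = true)
    (hT : t.c.map Prod.fst = List.range' 0 t.c.length) (hn : t.c.length = t.n) {C : Cert6}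
    (h : chF t c C = true) : chR t C = true ∧ chI t C = true := by
  have h0 : chF t c C = (((glen t.g C.G && uok C.U t.n)
      && ((Nat.ble (Nat.succ C.hU) C.wU && Nat.ble C.wU (2 * C.hU + 1))
        && (Nat.beq C.wG (2 * C.hG) && Nat.ble (2 * t.n * (C.wU * C.wU)) C.hG)))
      && frc (fun B => frc (fun w => frc (fun h => frc (fun be => frc (fun Z1 => frc (fun Z =>
        (Nat.beq Z (Z1 + 1) && (isz (FRf t c C B be (clp B w h be Z Z1 C.U 1
            (C.hG * (ons B t.n * (1 + be)))))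
          && isz (FIf t c C B be (clp B w h be Z Z1 C.U 1 (C.hG * (ons B t.n * (1 + be))))))))
      (be * be)) (be * be - 1)) (B ^ t.n)) C.hU) C.wU) C.wG) := rfl
  rw [h0] at h
  simp only [frc_eq, Bool.and_eq_true] at h
  obtain ⟨⟨⟨hl, hU⟩, ⟨s1, s2⟩, s3, s4⟩, z, h1, h2⟩ := h
  have z' := Nat.eq_of_beq_eq_true z
  have s3' := Nat.eq_of_beq_eq_true s3
  rw [FRf_eq hc hT hn C hl hU (Nat.le_of_ble_eq_true s1) (Nat.le_of_ble_eq_true s2) s3'
    (Nat.le_of_ble_eq_true s4) z'] at h1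
  rw [FIf_eq hc hT hn C hl hU (Nat.le_of_ble_eq_true s1) (Nat.le_of_ble_eq_true s2) s3'
    (Nat.le_of_ble_eq_true s4) z'] at h2
  exact ⟨h1, h2⟩

end Pool.Agent.Helper12.HR2F
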